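import Pool.Agent.H38.AT.Targets
import Pool.Agent.H18.AB.CLE
import Pool.Agent.H68.AE.N2

/-!
# Board `alt_modules` (MP_7ecdd4_nt), row CLN: the tuples with a good modulus
-/

set_option autoImplicit false

open Pool.Agent.H38.AE.Statement (Admissible)
open Pool.Agent.H38.PS (pd)
open Pool.Agent.H38.RB (tp)
open Pool.Agent.H38.AB (Nf Lo T_NSU T_GEM)

namespace Pool.Agent.H35.AT

open Pool.Agent.H38.AT
open Pool.Agent.H18.AB (count Lo_nonneg Lo_mul Lo_mono pd_pf_pos pd_mono pd_pos tp_dvd tp_pf)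
open Pool.Agent.H68.AE.N2 (sg sg_natAbs rel Y sum_Y cs)

/-- the radical of an integer -/
noncomputable def pz (a : ℤ) : ℝ := (pd a.natAbs.primeFactors : ℝ)

theorem pz_pos (a : ℤ) : 0 < pz a := by
  unfold pz
  exact_mod_cast pd_pf_pos a.natAbs

theorem pz_one : pz 1 = 1 := by
  unfold pz pd
  simp

theorem sum_image_le' {ι κ : Type} [DecidableEq κ] (s : Finset ι) (g : ι → κ) (f : κ → ℝ)
    (hf : ∀ a, 0 ≤ f a) : ∑ a ∈ s.image g, f a ≤ ∑ p ∈ s, f (g p) := by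
  classical
  induction s using Finset.induction_on with
  | empty => simp
  | insert p s hp ih =>
    rw [Finset.image_insert, Finset.sum_insert hp]
    by_cases h : g p ∈ s.image g
    · rw [Finset.insert_eq_of_mem h]
      linarith [hf (g p)]
    · rw [Finset.sum_insert h]
      linarith

theorem natAbs_sg (b : Bool) (m : ℕ) : (sg b * (m : ℤ)).natAbs = m := by
  rw [Int.natAbs_mul, Int.natAbs_natCast]
  cases b <;> simp [sg]

/-- the integers whose absolute value is in `Nf` -/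
noncomputable def Sz (X : ℝ) (Ω V : ℕ) : Finset ℤ :=
  ((Finset.univ : Finset Bool) ×ˢ Nf X Ω V).image fun p => sg p.1 * (p.2 : ℤ)

theorem mem_Sz {X : ℝ} {Ω V : ℕ} {a : ℤ} : a ∈ Sz X Ω V ↔ a.natAbs ∈ Nf X Ω V := by
  unfold Sz
  rw [Finset.mem_image]
  constructor
  · rintro ⟨p, hp, rfl⟩
    rw [natAbs_sg]
    exact (Finset.mem_product.1 hp).2
  · intro h
    exact ⟨(decide (0 ≤ a), a.natAbs), Finset.mem_product.2 ⟨Finset.mem_univ _, h⟩,
      (sg_natAbs a).symm⟩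

theorem sum_Sz (hNSU : T_NSU) {X : ℝ} (Ω V : ℕ) (hX : 2 ≤ X) :
    ∑ a ∈ Sz X Ω V, 1 / pz a ≤ 2 * Lo 1 X Ω V := by
  unfold Sz
  refine (sum_image_le' _ _ (fun a => 1 / pz a) fun a => (one_div_pos.2 (pz_pos a)).le).trans ?_
  rw [Finset.sum_product]
  have h : ∀ b : Bool, ∑ m ∈ Nf X Ω V, 1 / pz (sg b * (m : ℤ)) ≤ Lo 1 X Ω V := by
    intro b
    refine le_trans (le_of_eq ?_) (hNSU X Ω V hX).2
    refine Finset.sum_congr rfl fun m _ => ?_
    unfold pz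
    rw [natAbs_sg]
  refine (Finset.sum_le_sum fun b _ => h b).trans (le_of_eq ?_)
  rw [Finset.sum_const, Finset.card_univ, Fintype.card_bool, nsmul_eq_mul]
  norm_num

/-- the weight of an entry -/
noncomputable def wz (a : ℤ) : ℝ := 1 / √(pz a)

theorem wz_pos (a : ℤ) : 0 < wz a := one_div_pos.2 (Real.sqrt_pos.2 (pz_pos a))

open Classical in
/-- the pairs of entries -/
noncomputable def Pz (X : ℝ) (Ω V g : ℕ) (c : ZMod g) : Finset (ℤ × ℤ) :=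
  (((Sz X Ω V).filter fun a => IsUnit ((a : ℤ) : ZMod g)) ×ˢ
    ((Sz X Ω V).filter fun a => IsUnit ((a : ℤ) : ZMod g))).filter
    (fun t => ((t.1 : ℤ) : ZMod g) + ((t.2 : ℤ) : ZMod g) = c)

open Classical in
theorem mem_Pz {X : ℝ} {Ω V g : ℕ} {c : ZMod g} {t : ℤ × ℤ} : t ∈ Pz X Ω V g c ↔
    ((t.1 ∈ Sz X Ω V ∧ IsUnit ((t.1 : ℤ) : ZMod g)) ∧
      (t.2 ∈ Sz X Ω V ∧ IsUnit ((t.2 : ℤ) : ZMod g))) ∧
      ((t.1 : ℤ) : ZMod g) + ((t.2 : ℤ) : ZMod g) = c := by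
  unfold Pz
  rw [Finset.mem_filter, Finset.mem_product, Finset.mem_filter, Finset.mem_filter]

open Classical in
theorem energy (hGEM : T_GEM) {X : ℝ} {Ω V g : ℕ} [NeZero g] (hX : 2 ≤ X) (hg : 2 * X ^ 3 ≤ g)
    (hΩ : g.primeFactors.card ≤ Ω) (c : ZMod g) :
    ∑ t ∈ Pz X Ω V g c, wz t.1 * wz t.2 ≤ 4 * Lo 8 X Ω V := by
  have e : Pz X Ω V g c = (((Sz X Ω V).filter fun a => IsUnit ((a : ℤ) : ZMod g)) ×ˢ
        ((Sz X Ω V).filter fun a => IsUnit ((a : ℤ) : ZMod g))).filter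
        (fun t => ((t.1 : ℤ) : ZMod g) + ((t.2 : ℤ) : ZMod g) = c) := by
    ext t
    rw [mem_Pz, Finset.mem_filter, Finset.mem_product, Finset.mem_filter, Finset.mem_filter]
  rw [e]
  refine (cs ((Sz X Ω V).filter fun a => IsUnit ((a : ℤ) : ZMod g))
    (fun a : ℤ => (a : ZMod g)) wz c).trans ?_
  let P : (Bool × Bool) × (ℕ × ℕ) → Prop := fun p =>
    ((p.2.1 : ℕ) : ZMod g) = ((if p.1.1 = p.1.2 then 1 else -1 : (ZMod g)ˣ) : ZMod g) *
      ((p.2.2 : ℕ) : ZMod g) ∧ IsUnit ((p.2.1 : ℕ) : ZMod g)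
  let G : (Bool × Bool) × (ℕ × ℕ) → ℤ × ℤ := fun p =>
    (sg p.1.1 * (p.2.1 : ℤ), sg p.1.2 * (p.2.2 : ℤ))
  have hsub : (((Sz X Ω V).filter fun a => IsUnit ((a : ℤ) : ZMod g)) ×ˢ
        ((Sz X Ω V).filter fun a => IsUnit ((a : ℤ) : ZMod g))).filter
        (fun t => ((t.1 : ℤ) : ZMod g) = ((t.2 : ℤ) : ZMod g)) ⊆
      (((Finset.univ : Finset (Bool × Bool)) ×ˢ (Nf X Ω V ×ˢ Nf X Ω V)).filter P).image G := by
    intro t ht
    rw [Finset.mem_filter, Finset.mem_product, Finset.mem_filter, Finset.mem_filter] at ht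
    obtain ⟨⟨⟨t1, u1⟩, ⟨t2, u2⟩⟩, heq⟩ := ht
    rw [Finset.mem_image]
    refine ⟨((decide (0 ≤ t.1), decide (0 ≤ t.2)), (t.1.natAbs, t.2.natAbs)), ?_, ?_⟩
    · rw [Finset.mem_filter, Finset.mem_product, Finset.mem_product]
      refine ⟨⟨Finset.mem_univ _, mem_Sz.1 t1, mem_Sz.1 t2⟩, ?_, ?_⟩
      · refine rel (b1 := decide (0 ≤ t.1)) (b2 := decide (0 ≤ t.2)) ?_
        show ((sg (decide (0 ≤ t.1)) * (t.1.natAbs : ℤ) : ℤ) : ZMod g) =
          ((sg (decide (0 ≤ t.2)) * (t.2.natAbs : ℤ) : ℤ) : ZMod g)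
        rw [← sg_natAbs, ← sg_natAbs]
        exact heq
      · show IsUnit ((t.1.natAbs : ℕ) : ZMod g)
        have h4 : ((t.1 : ℤ) : ZMod g) =
            ((sg (decide (0 ≤ t.1)) : ℤ) : ZMod g) * ((t.1.natAbs : ℕ) : ZMod g) := by
          conv_lhs => rw [sg_natAbs t.1]
          rw [Int.cast_mul, Int.cast_natCast]
        rw [h4] at u1
        exact isUnit_of_mul_isUnit_right u1
    · exact Prod.ext (sg_natAbs t.1).symm (sg_natAbs t.2).symm
  refine (Finset.sum_le_sum_of_subset_of_nonneg hsub fun t _ _ =>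
    (mul_pos (wz_pos t.1) (wz_pos t.2)).le).trans ?_
  refine (sum_image_le' _ G (fun t => wz t.1 * wz t.2) fun t =>
    (mul_pos (wz_pos t.1) (wz_pos t.2)).le).trans ?_
  rw [Finset.sum_filter, Finset.sum_product]
  have hb : ∀ b ∈ (Finset.univ : Finset (Bool × Bool)), ∑ m ∈ Nf X Ω V ×ˢ Nf X Ω V,
      (if P (b, m) then wz (G (b, m)).1 * wz (G (b, m)).2 else 0) ≤ Lo 8 X Ω V := by
    intro b _
    rw [← Finset.sum_filter]
    refine le_trans (le_of_eq ?_) (hGEM X Ω V g (if b.1 = b.2 then 1 else -1) hX hg hΩ)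
    refine Finset.sum_congr ?_ fun m _ => ?_
    · ext m
      exact ⟨fun h => Finset.mem_filter.2 (Finset.mem_filter.1 h),
        fun h => Finset.mem_filter.2 (Finset.mem_filter.1 h)⟩
    · show wz (sg b.1 * (m.1 : ℤ)) * wz (sg b.2 * (m.2 : ℤ)) = _
      unfold wz pz
      rw [natAbs_sg, natAbs_sg, one_div_mul_one_div, ← Real.sqrt_mul (by positivity)]
  refine (Finset.sum_le_sum hb).trans (le_of_eq ?_)
  rw [Finset.sum_const, Finset.card_univ, Fintype.card_prod, Fintype.card_bool, nsmul_eq_mul]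
  norm_num

/-! ### Tuples -/

theorem prn_ne {n : ℕ} {x : Fin n → ℤ} (hx : Admissible x) : prn x ≠ 0 := by
  unfold prn
  rw [Int.natAbs_ne_zero]
  exact Finset.prod_ne_zero_iff.2 fun i _ => hx.1 i

theorem dvd_prn {n : ℕ} (x : Fin n → ℤ) (i : Fin n) : (x i).natAbs ∣ prn x :=
  Int.natAbs_dvd_natAbs.2 (Finset.dvd_prod_of_mem _ (Finset.mem_univ i))

theorem mem_NfN (hNSU : T_NSU) {X : ℝ} {Ω V n : ℕ} (hX : 2 ≤ X) {x : Fin n → ℤ}
    (hx : x ∈ FwN n X Ω V) {d : ℕ} (hd : d ∣ prn x) : d ∈ Nf X Ω V := by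
  obtain ⟨hA, h1, h2, h3⟩ := hx
  have hp := prn_ne hA
  have hd0 : d ≠ 0 := fun h => hp (by rw [h] at hd; exact Nat.eq_zero_of_zero_dvd hd)
  have hsub : d.primeFactors ⊆ (prn x).primeFactors := Nat.primeFactors_mono hd hp
  refine (hNSU X Ω V hX).1 d hd0 ?_ ?_ ?_
  · refine le_trans ?_ h1
    exact_mod_cast pd_mono (fun _ h => Nat.prime_of_mem_primeFactors h) hsub
  · exact (Finset.card_le_card hsub).trans h2
  · intro p
    exact ((Nat.factorization_le_iff_dvd hd0 hp).2 hd p).trans (h3 p)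

theorem one_mem (hNSU : T_NSU) {X : ℝ} (Ω V : ℕ) (hX : 2 ≤ X) : 1 ∈ Nf X Ω V := by
  refine (hNSU X Ω V hX).1 1 one_ne_zero ?_ (by simp) (by simp)
  simp [pd]
  linarith

/-- the tuple with the entries `i`, `j`, `k` replaced by `1` -/
def Y1 {n : ℕ} (i j k : Fin n) (x : Fin n → ℤ) : Fin n → ℤ :=
  fun l => if l = i ∨ l = j ∨ l = k then 1 else x l

theorem Y_Y1 {n : ℕ} (i j k : Fin n) (x : Fin n → ℤ) : Y i j k (Y1 i j k x) = Y i j k x := by
  funext l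
  unfold Y Y1
  by_cases h : l = i ∨ l = j ∨ l = k
  · rw [if_pos h, if_pos h]
  · rw [if_neg h, if_neg h, if_neg h]

theorem prod_Y1 {n : ℕ} (i j k : Fin n) (x : Fin n → ℤ) :
    ∏ l ∈ Finset.univ.filter (fun l => l ≠ i ∧ l ≠ j ∧ l ≠ k),
      (pd (x l).natAbs.primeFactors : ℝ) = ∏ l, pz (Y1 i j k x l) := by
  rw [← Finset.prod_filter_mul_prod_filter_not Finset.univ
    (fun l => l ≠ i ∧ l ≠ j ∧ l ≠ k) (fun l => pz (Y1 i j k x l))]
  have e1 : ∏ l ∈ Finset.univ.filter (fun l => ¬ (l ≠ i ∧ l ≠ j ∧ l ≠ k)),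
      pz (Y1 i j k x l) = 1 := by
    refine Finset.prod_eq_one fun l hl => ?_
    have h := (Finset.mem_filter.1 hl).2
    have h' : l = i ∨ l = j ∨ l = k := by
      by_contra hc
      push Not at hc
      exact h hc
    unfold Y1
    rw [if_pos h', pz_one]
  rw [e1, mul_one]
  refine Finset.prod_congr rfl fun l hl => ?_
  obtain ⟨h1, h2, h3⟩ := (Finset.mem_filter.1 hl).2
  unfold Y1
  rw [if_neg (by push Not; exact ⟨h1, h2, h3⟩)]
  rfl

/-- the reconstruction -/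
def psi {n : ℕ} (i j k : Fin n) (y : Fin n → ℤ) (t : ℤ × ℤ) : Fin n → ℤ :=
  fun l => if l = i then t.1 else if l = j then t.2 else if l = k then
    -(t.1 + t.2 + ∑ l', Y i j k y l') else y l

theorem psi_eq {n : ℕ} {i j k : Fin n} (hij : i ≠ j) (hik : i ≠ k) (hjk : j ≠ k)
    {x : Fin n → ℤ} (hx : ∑ l, x l = 0) : psi i j k (Y1 i j k x) (x i, x j) = x := by
  funext l
  unfold psi
  rw [Y_Y1]
  have h := sum_Y hij hik hjk x
  rw [hx] at h
  by_cases h1 : l = i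
  · rw [if_pos h1, h1]
  · rw [if_neg h1]
    by_cases h2 : l = j
    · rw [if_pos h2, h2]
    · rw [if_neg h2]
      by_cases h3 : l = k
      · rw [if_pos h3, h3]
        show -(x i + x j + _) = _
        linarith
      · rw [if_neg h3]
        unfold Y1
        rw [if_neg (by push Not; exact ⟨h1, h2, h3⟩)]

theorem Lo_pow (X : ℝ) (Ω V n : ℕ) : Lo 1 X Ω V ^ n = Lo n X Ω V := by
  unfold Lo
  rw [← pow_mul]
  congr 1
  ring

/-- the indices: three places, the modulus, the other entries, the two entries -/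
abbrev Ix (n : ℕ) : Type := ((Fin n × Fin n × Fin n) × ℕ) × ((Fin n → ℤ) × (ℤ × ℤ))

open Classical in
/-- the weight of an index -/
noncomputable def Wt (n : ℕ) (X Z : ℝ) (Ω V : ℕ) (p : Ix n) : ℝ :=
  if (X ^ 4 ≤ (p.1.2 : ℝ) ∧ p.1.2.primeFactors.card ≤ Ω) ∧
      p.2.2 ∈ Pz X Ω V p.1.2
        (-((∑ l, Y p.1.1.1 p.1.1.2.1 p.1.1.2.2 p.2.1 l : ℤ) : ZMod p.1.2)) then
    Z * (1 / (pd p.1.2.primeFactors : ℝ)) * (∏ l, 1 / pz (p.2.1 l)) * (wz p.2.2.1 * wz p.2.2.2)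
  else 0

theorem prod_pos (n : ℕ) (y : Fin n → ℤ) : 0 ≤ ∏ l, 1 / pz (y l) :=
  Finset.prod_nonneg fun l _ => (one_div_pos.2 (pz_pos _)).le

theorem Wt_nonneg {n : ℕ} {X Z : ℝ} (Ω V : ℕ) (hZ : 0 ≤ Z) (p : Ix n) : 0 ≤ Wt n X Z Ω V p := by
  unfold Wt
  split_ifs
  · have h1 := prod_pos n p.2.1
    have h2 := wz_pos p.2.2.1
    have h3 := wz_pos p.2.2.2
    positivity
  · exact le_rfl

theorem Wt_sum (hGEM : T_GEM) {n : ℕ} {X Z : ℝ} (Ω V : ℕ) (hX : 2 ≤ X) (hZ : 0 ≤ Z)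
    (a : (Fin n × Fin n × Fin n) × ℕ) (y : Fin n → ℤ) :
    ∑ t ∈ Sz X Ω V ×ˢ Sz X Ω V, Wt n X Z Ω V (a, (y, t)) ≤
      Z * (1 / (pd a.2.primeFactors : ℝ)) * (∏ l, 1 / pz (y l)) * (4 * Lo 8 X Ω V) := by
  classical
  have h1 := prod_pos n y
  have h8 := Lo_nonneg 8 Ω V hX
  have h0 : 0 ≤ Z * (1 / (pd a.2.primeFactors : ℝ)) * (∏ l, 1 / pz (y l)) := by positivity
  by_cases hg : X ^ 4 ≤ (a.2 : ℝ) ∧ a.2.primeFactors.card ≤ Ω
  · have hX0 : 0 < X := by linarith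
    have hg0 : NeZero a.2 := ⟨by
      intro h
      have h2 : (0 : ℝ) < X ^ 4 := by positivity
      have h3 := hg.1
      rw [h] at h3
      push_cast at h3
      linarith⟩
    have hgX : 2 * X ^ 3 ≤ (a.2 : ℝ) := by
      refine le_trans ?_ hg.1
      have : (0 : ℝ) < X ^ 3 := by positivity
      nlinarith
    have h2 := energy (V := V) hGEM hX hgX hg.2
      (-((∑ l, Y a.1.1 a.1.2.1 a.1.2.2 y l : ℤ) : ZMod a.2))
    refine le_trans ?_ (mul_le_mul_of_nonneg_left h2 h0)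
    rw [Finset.mul_sum]
    unfold Wt
    simp only [hg, and_self, true_and]
    rw [← Finset.sum_filter]
    refine Finset.sum_le_sum_of_subset_of_nonneg ?_ fun t _ _ =>
      mul_nonneg h0 (mul_pos (wz_pos t.1) (wz_pos t.2)).le
    intro t ht
    exact (Finset.mem_filter.1 ht).2
  · have h2 : ∑ t ∈ Sz X Ω V ×ˢ Sz X Ω V, Wt n X Z Ω V (a, (y, t)) = 0 := by
      refine Finset.sum_eq_zero fun t _ => ?_
      unfold Wt
      exact if_neg fun h => hg h.1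
    rw [h2]
    positivity

theorem pf_CLN (hNSU : T_NSU) (hGEM : T_GEM) : T_CLN := by
  classical
  intro n
  refine ⟨n + 9, 4 * (n : ℝ) ^ 3 * 2 ^ n + 1, by positivity, fun X Z Ω V hX hZ => ?_⟩
  have hL := fun K => Lo_nonneg K Ω V hX
  have hsum : ∑ p ∈ (Finset.univ ×ˢ Nf X Ω V) ×ˢ
      ((Fintype.piFinset fun _ : Fin n => Sz X Ω V) ×ˢ (Sz X Ω V ×ˢ Sz X Ω V)),
      Wt n X Z Ω V p ≤ (4 * (n : ℝ) ^ 3 * 2 ^ n + 1) * Z * Lo (n + 9) X Ω V := by
    rw [Finset.sum_product]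
    have h1 : ∀ a ∈ (Finset.univ : Finset (Fin n × Fin n × Fin n)) ×ˢ Nf X Ω V,
        ∑ q ∈ (Fintype.piFinset fun _ : Fin n => Sz X Ω V) ×ˢ (Sz X Ω V ×ˢ Sz X Ω V),
          Wt n X Z Ω V (a, q) ≤
        (1 / (pd a.2.primeFactors : ℝ)) * (Z * (2 * Lo 1 X Ω V) ^ n * (4 * Lo 8 X Ω V)) := by
      intro a _
      rw [Finset.sum_product]
      refine (Finset.sum_le_sum fun y _ => Wt_sum hGEM Ω V hX hZ a y).trans ?_
      rw [← Finset.sum_mul, ← Finset.mul_sum]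
      have h2 : ∑ y ∈ (Fintype.piFinset fun _ : Fin n => Sz X Ω V), ∏ l, 1 / pz (y l) =
          (∑ z ∈ Sz X Ω V, 1 / pz z) ^ n := by
        rw [← Finset.prod_univ_sum (fun _ : Fin n => Sz X Ω V) fun _ z => 1 / pz z,
          Finset.prod_const, Finset.card_univ, Fintype.card_fin]
      have h3 : (∑ z ∈ Sz X Ω V, 1 / pz z) ^ n ≤ (2 * Lo 1 X Ω V) ^ n :=
        pow_le_pow_left₀ (Finset.sum_nonneg fun z _ => (one_div_pos.2 (pz_pos z)).le)
          (sum_Sz hNSU Ω V hX) n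
      rw [h2]
      have h4 : 0 ≤ Z * (1 / (pd a.2.primeFactors : ℝ)) := by positivity
      have h5 : 0 ≤ 4 * Lo 8 X Ω V := by linarith [hL 8]
      calc Z * (1 / (pd a.2.primeFactors : ℝ)) * (∑ z ∈ Sz X Ω V, 1 / pz z) ^ n *
            (4 * Lo 8 X Ω V) ≤ Z * (1 / (pd a.2.primeFactors : ℝ)) * (2 * Lo 1 X Ω V) ^ n *
            (4 * Lo 8 X Ω V) :=
          mul_le_mul_of_nonneg_right (mul_le_mul_of_nonneg_left h3 h4) h5
        _ = _ := by ring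
    refine (Finset.sum_le_sum h1).trans ?_
    rw [← Finset.sum_mul]
    have h6 : ∑ a ∈ (Finset.univ : Finset (Fin n × Fin n × Fin n)) ×ˢ Nf X Ω V,
        1 / (pd a.2.primeFactors : ℝ) ≤ (n : ℝ) ^ 3 * Lo 1 X Ω V := by
      rw [Finset.sum_product]
      show ∑ _a : Fin n × Fin n × Fin n, ∑ m ∈ Nf X Ω V, 1 / (pd m.primeFactors : ℝ) ≤ _
      rw [Finset.sum_const, Finset.card_univ, Fintype.card_prod,
        Fintype.card_prod, Fintype.card_fin, nsmul_eq_mul]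
      have e : ((n * (n * n) : ℕ) : ℝ) = (n : ℝ) ^ 3 := by push_cast; ring
      rw [e]
      exact mul_le_mul_of_nonneg_left (hNSU X Ω V hX).2 (by positivity)
    have h7 : 0 ≤ Z * (2 * Lo 1 X Ω V) ^ n * (4 * Lo 8 X Ω V) := by
      have := hL 1
      have := hL 8
      positivity
    refine (mul_le_mul_of_nonneg_right h6 h7).trans ?_
    have h8 : Lo 1 X Ω V * Lo 1 X Ω V ^ n * Lo 8 X Ω V = Lo (n + 9) X Ω V := by
      rw [Lo_pow, Lo_mul, Lo_mul]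
      congr 1
      omega
    calc (n : ℝ) ^ 3 * Lo 1 X Ω V * (Z * (2 * Lo 1 X Ω V) ^ n * (4 * Lo 8 X Ω V)) =
          4 * (n : ℝ) ^ 3 * 2 ^ n * Z * (Lo 1 X Ω V * Lo 1 X Ω V ^ n * Lo 8 X Ω V) := by
          rw [mul_pow]
          ring
      _ = 4 * (n : ℝ) ^ 3 * 2 ^ n * (Z * Lo (n + 9) X Ω V) := by rw [h8]; ring
      _ ≤ (4 * (n : ℝ) ^ 3 * 2 ^ n + 1) * (Z * Lo (n + 9) X Ω V) :=
          mul_le_mul_of_nonneg_right (by linarith) (mul_nonneg hZ (hL _))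
      _ = _ := by ring
  have hc := count {x | x ∈ FwN n X Ω V ∧ PEN X Z x}
    ((Finset.univ ×ˢ Nf X Ω V) ×ˢ
      ((Fintype.piFinset fun _ : Fin n => Sz X Ω V) ×ˢ (Sz X Ω V ×ˢ Sz X Ω V)))
    (fun p : Ix n => psi p.1.1.1 p.1.1.2.1 p.1.1.2.2 p.2.1 p.2.2) (Wt n X Z Ω V)
    (fun p _ => Wt_nonneg Ω V hZ p) ?_
  · exact ⟨hc.1, hc.2.trans hsum⟩
  rintro x ⟨hxF, i, j, k, G, hij, hik, hjk, hG, hGX, hGZ⟩
  obtain ⟨hA, h1, h2, h3⟩ := id hxF
  have hm : ∀ l, x l ∈ Sz X Ω V := fun l => mem_Sz.2 (mem_NfN hNSU hX hxF (dvd_prn x l))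
  have hk0 : (x k).natAbs ≠ 0 := Int.natAbs_ne_zero.2 (hA.1 k)
  have hgd := tp_dvd hk0 hG
  have hgN := mem_NfN hNSU hX hxF (hgd.trans (dvd_prn x k))
  have hgp := tp_pf hk0 hG
  obtain ⟨g, hg⟩ : ∃ g, g = tp G (x k).natAbs := ⟨_, rfl⟩
  rw [← hg] at hgd hgN hgp hGX
  refine ⟨(((i, j, k), g), (Y1 i j k x, (x i, x j))), ?_, ?_, psi_eq hij hik hjk hA.2.2⟩
  · rw [Finset.mem_product, Finset.mem_product, Finset.mem_product, Finset.mem_product]
    refine ⟨⟨Finset.mem_univ _, hgN⟩, ?_, hm i, hm j⟩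
    rw [Fintype.mem_piFinset]
    intro l
    show Y1 i j k x l ∈ Sz X Ω V
    unfold Y1
    split_ifs
    · rw [mem_Sz]
      exact one_mem hNSU Ω V hX
    · exact hm l
  · have hcg : g.primeFactors.card ≤ Ω := by
      refine le_trans (Finset.card_le_card ?_) h2
      exact Nat.primeFactors_mono (hgd.trans (dvd_prn x k)) (prn_ne hA)
    have hgk : (g : ℤ) ∣ x k := Int.natCast_dvd.2 hgd
    have hun : ∀ l, l ≠ k → IsUnit ((x l : ℤ) : ZMod g) := by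
      intro l hl
      have e1 : IsCoprime (x l) (g : ℤ) := IsCoprime.of_isCoprime_of_dvd_right (hA.2.1 _ _ hl) hgk
      obtain ⟨a, b, hab⟩ := e1
      have e2 := congrArg (fun z : ℤ => (z : ZMod g)) hab
      simp only [Int.cast_add, Int.cast_mul, Int.cast_natCast, ZMod.natCast_self, mul_zero,
        add_zero, Int.cast_one] at e2
      exact IsUnit.of_mul_eq_one _ (by rw [mul_comm]; exact e2)
    have hmem : (x i, x j) ∈ Pz X Ω V g (-((∑ l, Y i j k (Y1 i j k x) l : ℤ) : ZMod g)) := by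
      rw [mem_Pz]
      refine ⟨⟨⟨hm i, hun i hik⟩, ⟨hm j, hun j hjk⟩⟩, ?_⟩
      rw [Y_Y1]
      have e3 := sum_Y hij hik hjk x
      rw [hA.2.2] at e3
      have e4 : ((x k : ℤ) : ZMod g) = 0 := by
        rw [ZMod.intCast_zmod_eq_zero_iff_dvd]
        exact hgk
      have e5 : ((x i + x j + x k + ∑ l, Y i j k x l : ℤ) : ZMod g) = 0 := by
        rw [← e3]; simp
      rw [Int.cast_add, Int.cast_add, Int.cast_add, e4, add_zero] at e5
      exact eq_neg_of_add_eq_zero_left e5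
    have hG0 : (0 : ℝ) < pd g.primeFactors := by exact_mod_cast pd_pf_pos g
    have hP0 : 0 < ∏ l, pz (Y1 i j k x l) := Finset.prod_pos fun l _ => pz_pos _
    have hs0 : 0 < √(pz (x i) * pz (x j)) := Real.sqrt_pos.2 (mul_pos (pz_pos _) (pz_pos _))
    rw [prod_Y1, ← hgp] at hGZ
    change (pd g.primeFactors : ℝ) * (∏ l, pz (Y1 i j k x l)) * √(pz (x i) * pz (x j)) ≤ Z at hGZ
    unfold Wt
    rw [if_pos ⟨⟨hGX, hcg⟩, hmem⟩]
    show 1 ≤ Z * (1 / (pd g.primeFactors : ℝ)) * (∏ l, 1 / pz (Y1 i j k x l)) *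
      (wz (x i) * wz (x j))
    have e6 : wz (x i) * wz (x j) = 1 / √(pz (x i) * pz (x j)) := by
      unfold wz
      rw [Real.sqrt_mul (pz_pos _).le, one_div_mul_one_div]
    rw [e6, Finset.prod_div_distrib, Finset.prod_const_one]
    have e7 : Z * (1 / (pd g.primeFactors : ℝ)) * (1 / ∏ l, pz (Y1 i j k x l)) *
        (1 / √(pz (x i) * pz (x j))) =
        Z / ((pd g.primeFactors : ℝ) * (∏ l, pz (Y1 i j k x l)) * √(pz (x i) * pz (x j))) := by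
      field_simp
    rw [e7, one_le_div (mul_pos (mul_pos hG0 hP0) hs0)]
    exact hGZ

end Pool.Agent.H35.AT
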