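import Pool.Agent.H67.AT.Targets

/-!
Row PAN of the board hat: the paths of a chain are prolonged by a tail of edges without letters.
-/

set_option autoImplicit false

open Finset Pool.Agent.H67.AT
open Pool.Agent.H90.SPW

namespace Pool.Agent.H35.AT

section net

variable {X E Y : Type} [Fintype X] [DecidableEq X] [Fintype E] (G : Net X E Y)

/-- last edge -/
theorem net_pow_succ (t : ℕ) (x z : X) :
    (G.P ^ (t + 1)) x z = ∑ e, if G.tgt e = z then (G.P ^ t) x (G.src e) * G.wt e else 0 := by
  rw [pow_succ, Matrix.mul_apply]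
  have h1 : ∀ w, (G.P ^ t) x w * G.P w z =
      ∑ e, (G.P ^ t) x w * (if G.src e = w ∧ G.tgt e = z then G.wt e else 0) := by
    intro w
    rw [← Finset.mul_sum]
    rfl
  simp only [h1]
  rw [Finset.sum_comm]
  refine Finset.sum_congr rfl fun e _ => ?_
  by_cases h : G.tgt e = z
  · simp [h]
  · simp [h]

end net

section pad

variable {X E Y : Type} [Fintype X] [DecidableEq X] [Fintype E]

/-- the weight of an edge at the time `k` -/
def wk (c : Ch X E Y) (n k : ℕ) (a : E ⊕ X) : ℝ :=
  if k < n then Sum.elim c.wt (fun _ => 0) a else Sum.elim (fun _ => 0) (fun _ => 1) a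

theorem wk_nonneg (c : Ch X E Y) (n k : ℕ) (a : E ⊕ X) : 0 ≤ wk c n k a := by
  unfold wk
  split
  · cases a
    · exact c.wt_nonneg _
    · exact le_rfl
  · cases a
    · exact le_rfl
    · exact zero_le_one

/-- sources and targets -/
def s0 (c : Ch X E Y) : E ⊕ X → X := Sum.elim c.src id

def t0 (c : Ch X E Y) : E ⊕ X → X := Sum.elim c.tgt id

theorem sum_out (c : Ch X E Y) (n k : ℕ) (x : X) :
    ∑ a, (if s0 c a = x then wk c n k a else 0) ≤ 1 := by
  rw [Fintype.sum_sum_type]
  by_cases h : k < n
  · have h1 : ∀ e : E, (if s0 c (Sum.inl e) = x then wk c n k (Sum.inl e) else 0) =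
        if c.src e = x then c.wt e else 0 := by
      intro e
      simp [s0, wk, h]
    have h2 : ∀ y : X, (if s0 c (Sum.inr y : E ⊕ X) = x then wk c n k (Sum.inr y) else 0) = 0 := by
      intro y
      simp [wk, h]
    simp only [h1, h2, Finset.sum_const_zero, add_zero]
    refine le_trans (le_of_eq (Finset.sum_congr rfl fun e _ => ?_)) (c.out_le x)
    by_cases h3 : c.src e = x
    · rw [if_pos h3, if_pos h3]
    · rw [if_neg h3, if_neg h3]
  · have h1 : ∀ e : E, (if s0 c (Sum.inl e) = x then wk c n k (Sum.inl e) else 0) = 0 := by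
      intro e
      simp [wk, h]
    have h2 : ∀ y : X, (if s0 c (Sum.inr y : E ⊕ X) = x then wk c n k (Sum.inr y) else 0) =
        if y = x then 1 else 0 := by
      intro y
      simp [s0, wk, h]
    simp only [h1, h2, Finset.sum_const_zero, zero_add]
    rw [Finset.sum_ite_eq']
    simp

theorem sum_in (c : Ch X E Y) (n k : ℕ) (x : X) :
    ∑ a, (if t0 c a = x then wk c n k a else 0) ≤ 1 := by
  rw [Fintype.sum_sum_type]
  by_cases h : k < n
  · have h1 : ∀ e : E, (if t0 c (Sum.inl e) = x then wk c n k (Sum.inl e) else 0) =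
        if c.tgt e = x then c.wt e else 0 := by
      intro e
      simp [t0, wk, h]
    have h2 : ∀ y : X, (if t0 c (Sum.inr y : E ⊕ X) = x then wk c n k (Sum.inr y) else 0) = 0 := by
      intro y
      simp [wk, h]
    simp only [h1, h2, Finset.sum_const_zero, add_zero]
    refine le_trans (le_of_eq (Finset.sum_congr rfl fun e _ => ?_)) (c.in_le x)
    by_cases h3 : c.tgt e = x
    · rw [if_pos h3, if_pos h3]
    · rw [if_neg h3, if_neg h3]
  · have h1 : ∀ e : E, (if t0 c (Sum.inl e) = x then wk c n k (Sum.inl e) else 0) = 0 := by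
      intro e
      simp [wk, h]
    have h2 : ∀ y : X, (if t0 c (Sum.inr y : E ⊕ X) = x then wk c n k (Sum.inr y) else 0) =
        if y = x then 1 else 0 := by
      intro y
      simp [t0, wk, h]
    simp only [h1, h2, Finset.sum_const_zero, zero_add]
    rw [Finset.sum_ite_eq']
    simp

/-- sums over the edges of the padded net -/
theorem sumE (n' : ℕ) (h : ℕ → (E ⊕ X) → ℝ) :
    ∑ p : (E ⊕ X) × Fin n', h (p.2 : ℕ) p.1 = ∑ k ∈ range n', ∑ a, h k a := by
  rw [Fintype.sum_prod_type_right]
  exact Fin.sum_univ_eq_sum_range (fun k => ∑ a, h k a) n'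

/-- the padded net -/
def gN (c : Ch X E Y) (r : Y → E) (n n' : ℕ) :
    Net (X × Fin (n' + 1)) ((E ⊕ X) × Fin n') E where
  src p := (s0 c p.1, p.2.castSucc)
  tgt p := (t0 c p.1, p.2.succ)
  wt p := wk c n p.2 p.1
  lt p := Sum.elim (fun e => (c.lt e).map r) (fun _ => none) p.1
  nonneg p := wk_nonneg c n p.2 p.1
  out_le := by
    rintro ⟨x, i⟩
    obtain ⟨hh, hd⟩ : ∃ hh : ℕ → (E ⊕ X) → ℝ, ∀ k a, hh k a = if k = (i : ℕ) then
          (if s0 c a = x then wk c n k a else 0) else 0 := ⟨_, fun _ _ => rfl⟩
    have h1 : ∀ p : (E ⊕ X) × Fin n', (if (s0 c p.1, p.2.castSucc) = (x, i)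
        then wk c n p.2 p.1 else 0) = hh (p.2 : ℕ) p.1 := by
      rintro ⟨a, k⟩
      rw [hd]
      simp only [Prod.mk.injEq, Fin.ext_iff, Fin.val_castSucc]
      by_cases h2 : s0 c a = x
      · simp [h2]
      · simp [h2]
    refine le_of_eq_of_le ((Finset.sum_congr rfl fun p _ => h1 p).trans (sumE n' hh)) ?_
    simp only [hd]
    have h3 : ∀ k ∈ range n', ∑ a, (if k = (i : ℕ) then
        (if s0 c a = x then wk c n k a else 0) else 0) ≤ if k = (i : ℕ) then (1 : ℝ) else 0 := by
      intro k _
      by_cases h4 : k = (i : ℕ)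
      · simp only [h4, if_true]
        exact sum_out c n i x
      · simp [h4]
    refine (Finset.sum_le_sum h3).trans ?_
    rw [Finset.sum_ite_eq']
    split
    · exact le_rfl
    · exact zero_le_one
  in_le := by
    rintro ⟨x, i⟩
    obtain ⟨hh, hd⟩ : ∃ hh : ℕ → (E ⊕ X) → ℝ, ∀ k a, hh k a = if k + 1 = (i : ℕ) then
          (if t0 c a = x then wk c n k a else 0) else 0 := ⟨_, fun _ _ => rfl⟩
    have h1 : ∀ p : (E ⊕ X) × Fin n', (if (t0 c p.1, p.2.succ) = (x, i)
        then wk c n p.2 p.1 else 0) = hh (p.2 : ℕ) p.1 := by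
      rintro ⟨a, k⟩
      rw [hd]
      simp only [Prod.mk.injEq, Fin.ext_iff, Fin.val_succ]
      by_cases h2 : t0 c a = x
      · simp [h2]
      · simp [h2]
    refine le_of_eq_of_le ((Finset.sum_congr rfl fun p _ => h1 p).trans (sumE n' hh)) ?_
    simp only [hd]
    have h3 : ∀ k ∈ range n', ∑ a, (if k + 1 = (i : ℕ) then
        (if t0 c a = x then wk c n k a else 0) else 0) ≤
        if k = (i : ℕ) - 1 then (1 : ℝ) else 0 := by
      intro k _
      by_cases h4 : k + 1 = (i : ℕ)
      · simp only [h4, if_true]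
        rw [if_pos (by omega)]
        exact sum_in c n k x
      · simp only [h4, if_false, Finset.sum_const_zero]
        split
        · exact zero_le_one
        · exact le_rfl
    refine (Finset.sum_le_sum h3).trans ?_
    rw [Finset.sum_ite_eq']
    split
    · exact le_rfl
    · exact zero_le_one

variable (c : Ch X E Y) (r : Y → E) (n n' : ℕ)

/-- the powers of the transition matrix -/
theorem gN_pow (t : ℕ) (x z : X) (i j : Fin (n' + 1)) :
    ((gN c r n n').P ^ t) (x, i) (z, j) =
      if (j : ℕ) = (i : ℕ) + t then c.P (min t (n - i)) x z else 0 := by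
  induction t generalizing z j with
  | zero =>
    rw [pow_zero, Matrix.one_apply, Nat.zero_min, c.P_zero]
    by_cases h1 : x = z
    · by_cases h2 : i = j
      · subst h1; subst h2; simp
      · have h3 : ¬ (j : ℕ) = (i : ℕ) + 0 := by
          intro h4
          exact h2 (Fin.ext (by omega))
        rw [if_neg h3, if_neg]
        intro h5
        exact h2 (Prod.mk.inj h5).2
    · rw [if_neg h1, ite_self, if_neg]
      intro h5
      exact h1 (Prod.mk.inj h5).1
  | succ t ih =>
    rw [net_pow_succ]
    obtain ⟨hh, hd⟩ : ∃ hh : ℕ → (E ⊕ X) → ℝ, ∀ k a, hh k a =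
        if k + 1 = (j : ℕ) ∧ k = (i : ℕ) + t then
          (if t0 c a = z then c.P (min t (n - i)) x (s0 c a) * wk c n k a else 0)
            else 0 := ⟨_, fun _ _ => rfl⟩
    have h1 : ∀ p : (E ⊕ X) × Fin n', (if (gN c r n n').tgt p = (z, j) then
        ((gN c r n n').P ^ t) (x, i) ((gN c r n n').src p) * (gN c r n n').wt p else 0) =
        hh (p.2 : ℕ) p.1 := by
      rintro ⟨a, k⟩
      rw [hd]
      show (if (t0 c a, k.succ) = (z, j) then
        ((gN c r n n').P ^ t) (x, i) (s0 c a, k.castSucc) * wk c n k a else 0) = _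
      rw [ih]
      simp only [Prod.mk.injEq, Fin.ext_iff, Fin.val_succ, Fin.val_castSucc]
      by_cases h2 : t0 c a = z <;> by_cases h3 : (k : ℕ) + 1 = (j : ℕ) <;>
        by_cases h4 : (k : ℕ) = (i : ℕ) + t <;> simp [h2, h3, h4]
    rw [(Finset.sum_congr rfl fun p _ => h1 p).trans (sumE n' hh)]
    simp only [hd]
    by_cases hj : (j : ℕ) = (i : ℕ) + (t + 1)
    · rw [if_pos hj]
      have hlt : (i : ℕ) + t < n' := by
        have := j.2
        omega
      rw [Finset.sum_eq_single ((i : ℕ) + t)]
      · have h5 : (i : ℕ) + t + 1 = (j : ℕ) ∧ (i : ℕ) + t = (i : ℕ) + t := ⟨by omega, rfl⟩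
        simp only [h5, and_self, if_true]
        rw [Fintype.sum_sum_type]
        by_cases h6 : (i : ℕ) + t < n
        · have h7 : min t (n - i) = t := by omega
          have h8 : min (t + 1) (n - i) = t + 1 := by omega
          rw [h7, h8, c.P_succ]
          have h9 : ∀ y : X, (if t0 c (Sum.inr y : E ⊕ X) = z then
              c.P t x (s0 c (Sum.inr y : E ⊕ X)) * wk c n ((i : ℕ) + t) (Sum.inr y) else 0) = 0 := by
            intro y
            simp [wk, h6]
          simp only [h9, Finset.sum_const_zero, add_zero]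
          refine Finset.sum_congr rfl fun e _ => ?_
          simp [t0, s0, wk, h6]
        · have h7 : min t (n - i) = n - i := by omega
          have h8 : min (t + 1) (n - i) = n - i := by omega
          rw [h7, h8]
          have h9 : ∀ e : E, (if t0 c (Sum.inl e : E ⊕ X) = z then
              c.P (n - i) x (s0 c (Sum.inl e : E ⊕ X)) * wk c n ((i : ℕ) + t) (Sum.inl e)
                else 0) = 0 := by
            intro e
            simp [wk, h6]
          have h10 : ∀ y : X, (if t0 c (Sum.inr y : E ⊕ X) = z then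
              c.P (n - i) x (s0 c (Sum.inr y : E ⊕ X)) * wk c n ((i : ℕ) + t) (Sum.inr y)
                else 0) = if y = z then c.P (n - i) x y else 0 := by
            intro y
            simp [wk, h6, t0, s0]
          simp only [h9, h10, Finset.sum_const_zero, zero_add]
          rw [Finset.sum_ite_eq']
          simp
      · intro k _ hk
        have : ¬ (k + 1 = (j : ℕ) ∧ k = (i : ℕ) + t) := fun h => hk h.2
        simp [this]
      · intro hk
        exact absurd (Finset.mem_range.2 hlt) hk
    · rw [if_neg hj]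
      refine Finset.sum_eq_zero fun k _ => ?_
      have : ¬ (k + 1 = (j : ℕ) ∧ k = (i : ℕ) + t) := fun h => hj (by omega)
      simp [this]

/-- letters of the padded net -/
theorem use_bound [DecidableEq E] (hr : ∀ e y, c.lt e = some y → c.lt (r y) = some y) (e0 : E) :
    (∀ g : E → ℝ, ∑ e, (if (c.lt e).map r = some e0 then g e * c.wt e else 0) = 0) ∨
    ∃ y, ∀ g : E → ℝ, (∀ e, 0 ≤ g e) →
      ∑ e, (if (c.lt e).map r = some e0 then g e * c.wt e else 0) ≤ ∑ e, g e * c.use y e := by
  have key : ∀ e, (c.lt e).map r = some e0 → ∃ y, c.lt e = some y ∧ c.lt e0 = some y := by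
    intro e he
    cases hl : c.lt e with
    | none => rw [hl] at he; cases he
    | some y =>
      rw [hl] at he
      have h1 : r y = e0 := Option.some.inj he
      refine ⟨y, rfl, ?_⟩
      rw [← h1]
      exact hr e y hl
  cases h0 : c.lt e0 with
  | none =>
    left
    intro g
    refine Finset.sum_eq_zero fun e _ => ?_
    rw [if_neg]
    intro he
    obtain ⟨y, _, h2⟩ := key e he
    rw [h0] at h2
    cases h2
  | some y =>
    right
    refine ⟨y, fun g hg => Finset.sum_le_sum fun e _ => ?_⟩
    by_cases he : (c.lt e).map r = some e0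
    · rw [if_pos he]
      obtain ⟨y', h1, h2⟩ := key e he
      rw [h0] at h2
      have h3 : y' = y := (Option.some.inj h2).symm
      rw [Ch.use, if_pos (by rw [h1, h3])]
    · rw [if_neg he]
      exact mul_nonneg (hg e) (c.use_nonneg y e)

/-- the uses of a letter, forwards -/
theorem up_le [DecidableEq E] (hn : n ≤ n') {κ : ℝ} (hκ : 0 ≤ κ)
    (hr : ∀ e y, c.lt e = some y → c.lt (r y) = some y) (hu : c.UseLe n κ)
    (x' : X × Fin (n' + 1)) (e0 : E) : (gN c r n n').up n' x' e0 ≤ κ := by
  obtain ⟨x, i⟩ := x'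
  set U : ℕ → ℝ := fun t =>
    ∑ e, (if (c.lt e).map r = some e0 then c.P t x (c.src e) * c.wt e else 0) with hU
  have hU0 : ∀ t, 0 ≤ U t := by
    intro t
    refine Finset.sum_nonneg fun e _ => ?_
    split
    · exact mul_nonneg (c.P_nonneg _ _ _) (c.wt_nonneg _)
    · exact le_rfl
  have h1 : ∀ t ∈ range n', (∑ p, if (gN c r n n').lt p = some e0 then
      ((gN c r n n').P ^ t) (x, i) ((gN c r n n').src p) * (gN c r n n').wt p else 0) ≤
      if t < n then U t else 0 := by
    intro t _
    obtain ⟨hh, hd⟩ : ∃ hh : ℕ → (E ⊕ X) → ℝ, ∀ k a, hh k a = if k = (i : ℕ) + t then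
          (if Sum.elim (fun e => (c.lt e).map r) (fun _ => none) a = some e0 then
            c.P (min t (n - i)) x (s0 c a) * wk c n k a else 0) else 0 := ⟨_, fun _ _ => rfl⟩
    have h2 : ∀ p : (E ⊕ X) × Fin n', (if (gN c r n n').lt p = some e0 then
        ((gN c r n n').P ^ t) (x, i) ((gN c r n n').src p) * (gN c r n n').wt p else 0) =
        hh (p.2 : ℕ) p.1 := by
      rintro ⟨a, k⟩
      rw [hd]
      show (if Sum.elim (fun e => (c.lt e).map r) (fun _ => none) a = some e0 then
        ((gN c r n n').P ^ t) (x, i) (s0 c a, k.castSucc) * wk c n k a else 0) = _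
      rw [gN_pow]
      simp only [Fin.val_castSucc]
      by_cases h3 : (k : ℕ) = (i : ℕ) + t
      · simp only [h3, if_true]
      · simp only [h3, if_false, zero_mul, ite_self]
    rw [(Finset.sum_congr rfl fun p _ => h2 p).trans (sumE n' hh)]
    simp only [hd]
    have h3 : ∀ k ∈ range n', ∑ a : E ⊕ X, (if k = (i : ℕ) + t then
          (if Sum.elim (fun e => (c.lt e).map r) (fun _ => none) a = some e0 then
            c.P (min t (n - i)) x (s0 c a) * wk c n k a else 0) else 0) ≤
        if k = (i : ℕ) + t then (if t < n then U t else 0) else 0 := by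
      intro k _
      by_cases h4 : k = (i : ℕ) + t
      swap
      · simp [h4]
      simp only [h4, if_true]
      rw [Fintype.sum_sum_type]
      have h5 : ∀ y : X, (if Sum.elim (fun e => (c.lt e).map r) (fun _ => none)
          (Sum.inr y : E ⊕ X) = some e0 then c.P (min t (n - i)) x (s0 c (Sum.inr y : E ⊕ X)) *
            wk c n ((i : ℕ) + t) (Sum.inr y) else 0) = 0 := by
        intro y
        simp
      simp only [h5, Finset.sum_const_zero, add_zero]
      by_cases h6 : (i : ℕ) + t < n
      · rw [if_pos (by omega : t < n)]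
        have h7 : min t (n - i) = t := by omega
        rw [h7]
        refine le_of_eq (Finset.sum_congr rfl fun e _ => ?_)
        simp [s0, wk, h6]
      · have h8 : ∀ e : E, (if Sum.elim (fun e => (c.lt e).map r) (fun _ => none)
            (Sum.inl e : E ⊕ X) = some e0 then c.P (min t (n - i)) x (s0 c (Sum.inl e : E ⊕ X)) *
              wk c n ((i : ℕ) + t) (Sum.inl e) else 0) = 0 := by
          intro e
          simp [wk, h6]
        simp only [h8, Finset.sum_const_zero]
        split
        · exact hU0 t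
        · exact le_rfl
    refine (Finset.sum_le_sum h3).trans ?_
    rw [Finset.sum_ite_eq']
    split
    · exact le_rfl
    · split
      · exact hU0 t
      · exact le_rfl
  refine (Finset.sum_le_sum h1).trans ?_
  have h4 : ∑ t ∈ range n', (if t < n then U t else 0) = ∑ t ∈ range n, U t := by
    rw [← Finset.sum_filter]
    refine Finset.sum_congr ?_ fun _ _ => rfl
    ext t
    simp only [Finset.mem_filter, Finset.mem_range]
    omega
  rw [h4]
  rcases use_bound c r hr e0 with h5 | ⟨y, h5⟩
  · have : ∀ t ∈ range n, U t = 0 := fun t _ => h5 (fun e => c.P t x (c.src e))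
    rw [Finset.sum_eq_zero this]
    exact hκ
  · exact (Finset.sum_le_sum fun t _ => h5 (fun e => c.P t x (c.src e))
      (fun e => c.P_nonneg _ _ _)).trans (hu x y)

/-- the uses of a letter, backwards -/
theorem um_le [DecidableEq E] (hn : n ≤ n') {κ : ℝ} (hκ : 0 ≤ κ)
    (hr : ∀ e y, c.lt e = some y → c.lt (r y) = some y) (hu : c.rev.UseLe n κ)
    (x' : X × Fin (n' + 1)) (e0 : E) : (gN c r n n').um n' x' e0 ≤ κ := by
  obtain ⟨x, i⟩ := x'
  set W : ℕ → ℝ := fun t =>
    ∑ e, (if (c.lt e).map r = some e0 then c.P t (c.tgt e) x * c.wt e else 0) with hW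
  have hW0 : ∀ t, 0 ≤ W t := by
    intro t
    refine Finset.sum_nonneg fun e _ => ?_
    split
    · exact mul_nonneg (c.P_nonneg _ _ _) (c.wt_nonneg _)
    · exact le_rfl
  have h1 : ∀ t ∈ range n', (∑ p, if (gN c r n n').lt p = some e0 then
      (gN c r n n').wt p * ((gN c r n n').P ^ t) ((gN c r n n').tgt p) (x, i) else 0) =
      ∑ k ∈ range n', (if k < n ∧ (i : ℕ) = k + 1 + t then W (min t (n - (k + 1))) else 0) := by
    intro t _
    obtain ⟨hh, hd⟩ : ∃ hh : ℕ → (E ⊕ X) → ℝ, ∀ k a, hh k a = if (i : ℕ) = k + 1 + t then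
          (if Sum.elim (fun e => (c.lt e).map r) (fun _ => none) a = some e0 then
            wk c n k a * c.P (min t (n - (k + 1))) (t0 c a) x else 0) else 0 :=
      ⟨_, fun _ _ => rfl⟩
    have h2 : ∀ p : (E ⊕ X) × Fin n', (if (gN c r n n').lt p = some e0 then
        (gN c r n n').wt p * ((gN c r n n').P ^ t) ((gN c r n n').tgt p) (x, i) else 0) =
        hh (p.2 : ℕ) p.1 := by
      rintro ⟨a, k⟩
      rw [hd]
      show (if Sum.elim (fun e => (c.lt e).map r) (fun _ => none) a = some e0 then
        wk c n k a * ((gN c r n n').P ^ t) (t0 c a, k.succ) (x, i) else 0) = _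
      rw [gN_pow]
      simp only [Fin.val_succ]
      by_cases h3 : (i : ℕ) = (k : ℕ) + 1 + t
      · rw [if_pos h3, if_pos h3]
      · rw [if_neg h3, if_neg h3, mul_zero, ite_self]
    rw [(Finset.sum_congr rfl fun p _ => h2 p).trans (sumE n' hh)]
    simp only [hd]
    refine Finset.sum_congr rfl fun k _ => ?_
    by_cases h4 : (i : ℕ) = k + 1 + t
    swap
    · simp [h4]
    simp only [if_pos h4]
    rw [Fintype.sum_sum_type]
    have h5 : ∀ y : X, (if Sum.elim (fun e => (c.lt e).map r) (fun _ => none)
        (Sum.inr y : E ⊕ X) = some e0 then wk c n k (Sum.inr y) *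
          c.P (min t (n - (k + 1))) (t0 c (Sum.inr y : E ⊕ X)) x else 0) = 0 := by
      intro y
      simp
    simp only [h5, Finset.sum_const_zero, add_zero]
    by_cases h6 : k < n
    · rw [if_pos ⟨h6, h4⟩]
      refine Finset.sum_congr rfl fun e _ => ?_
      simp only [Sum.elim_inl, t0, wk, h6, if_true]
      rw [mul_comm]
    · rw [if_neg (fun h => h6 h.1)]
      refine Finset.sum_eq_zero fun e _ => ?_
      simp [wk, h6]
  show ∑ t ∈ range n', (∑ p, if (gN c r n n').lt p = some e0 then
      (gN c r n n').wt p * ((gN c r n n').P ^ t) ((gN c r n n').tgt p) (x, i) else 0) ≤ κ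
  rw [Finset.sum_congr rfl h1, Finset.sum_comm]
  have h2 : ∀ k ∈ range n', ∑ t ∈ range n',
      (if k < n ∧ (i : ℕ) = k + 1 + t then W (min t (n - (k + 1))) else 0) ≤
      if k < min (i : ℕ) n then W (min (i : ℕ) n - 1 - k) else 0 := by
    intro k _
    by_cases h3 : k < min (i : ℕ) n
    · rw [if_pos h3]
      rw [Finset.sum_eq_single ((i : ℕ) - 1 - k)]
      · rw [if_pos ⟨by omega, by omega⟩]
        have : min ((i : ℕ) - 1 - k) (n - (k + 1)) = min (i : ℕ) n - 1 - k := by omega
        rw [this]
      · intro t _ ht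
        rw [if_neg]
        intro h
        omega
      · intro hm
        exfalso
        apply hm
        rw [Finset.mem_range]
        have := i.2
        omega
    · rw [if_neg h3]
      refine le_of_eq (Finset.sum_eq_zero fun t _ => ?_)
      rw [if_neg]
      intro h
      omega
  refine (Finset.sum_le_sum h2).trans ?_
  have h4 : ∑ k ∈ range n', (if k < min (i : ℕ) n then W (min (i : ℕ) n - 1 - k) else 0) =
      ∑ k ∈ range (min (i : ℕ) n), W (min (i : ℕ) n - 1 - k) := by
    rw [← Finset.sum_filter]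
    refine Finset.sum_congr ?_ fun _ _ => rfl
    ext t
    simp only [Finset.mem_filter, Finset.mem_range]
    omega
  rw [h4, Finset.sum_range_reflect]
  have h5 : ∑ t ∈ range (min (i : ℕ) n), W t ≤ ∑ t ∈ range n, W t :=
    Finset.sum_le_sum_of_subset_of_nonneg
      (Finset.range_subset_range.2 (min_le_right _ _)) (fun t _ _ => hW0 t)
  refine h5.trans ?_
  rcases use_bound c r hr e0 with h6 | ⟨y, h6⟩
  · have : ∀ t ∈ range n, W t = 0 := fun t _ => h6 (fun e => c.P t (c.tgt e) x)
    rw [Finset.sum_eq_zero this]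
    exact hκ
  · refine (Finset.sum_le_sum fun t _ => h6 (fun e => c.P t (c.tgt e) x)
      (fun e => c.P_nonneg _ _ _)).trans ?_
    refine le_trans (le_of_eq ?_) (hu x y)
    refine Finset.sum_congr rfl fun t _ => Finset.sum_congr rfl fun e _ => ?_
    rw [c.rev_P, c.rev_use]
    rfl

/-- the starting weights of the padded net -/
def sN (n' : ℕ) (s : X → ℝ) (x' : X × Fin (n' + 1)) : ℝ := if (x'.2 : ℕ) = 0 then s x'.1 else 0

/-- the costs of the padded net -/
def fN (n' : ℕ) (f : E → ℝ) (p : (E ⊕ X) × Fin n') : ℝ := Sum.elim f (fun _ => 0) p.1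

/-- sums over the states with the starting weights -/
theorem sum_sN (s : X → ℝ) (g : X × Fin (n' + 1) → ℝ) :
    ∑ x', sN n' s x' * g x' = ∑ x, s x * g (x, 0) := by
  rw [Fintype.sum_prod_type]
  refine Finset.sum_congr rfl fun x _ => ?_
  rw [Finset.sum_eq_single 0]
  · simp [sN]
  · intro i _ hi
    have : ¬ (i : ℕ) = 0 := fun h => hi (Fin.ext h)
    simp [sN, this]
  · intro h
    exact absurd (Finset.mem_univ _) h

theorem sum_sN_one (s : X → ℝ) : ∑ x', sN n' s x' = ∑ x, s x := by
  have := sum_sN n' s (fun _ => 1)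
  simpa using this

/-- the survival -/
theorem surv (hn : n ≤ n') (s : X → ℝ) :
    ∑ x', ∑ z', sN n' s x' * ((gN c r n n').P ^ n') x' z' = ∑ x, ∑ z, s x * c.P n x z := by
  simp only [← Finset.mul_sum]
  rw [sum_sN]
  refine Finset.sum_congr rfl fun x _ => ?_
  congr 1
  rw [Fintype.sum_prod_type]
  refine Finset.sum_congr rfl fun z _ => ?_
  rw [Finset.sum_eq_single (Fin.last n')]
  · rw [gN_pow]
    have h1 : ((Fin.last n' : Fin (n' + 1)) : ℕ) = ((0 : Fin (n' + 1)) : ℕ) + n' := by simp
    rw [if_pos h1]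
    have h2 : min n' (n - ((0 : Fin (n' + 1)) : ℕ)) = n := by
      simp
      omega
    rw [h2]
  · intro j _ hj
    rw [gN_pow, if_neg]
    intro h
    apply hj
    apply Fin.ext
    simp only [Fin.val_last]
    simpa using h
  · intro h
    exact absurd (Finset.mem_univ _) h

/-- the expected costs -/
theorem ex_eq (hn : n ≤ n') (s : X → ℝ) (f : E → ℝ) :
    (gN c r n n').ex (sN n' s) n' (fN n' f) = Pool.Agent.H66.SLP.exf c s n f := by
  have h1 : ∀ t ∈ range n', (∑ x', ∑ p, sN n' s x' * ((gN c r n n').P ^ t) x'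
      ((gN c r n n').src p) * (gN c r n n').wt p * fN n' f p) =
      if t < n then ∑ x, ∑ e, s x * c.P t x (c.src e) * c.wt e * f e else 0 := by
    intro t ht
    rw [Finset.mem_range] at ht
    have h2 : ∀ x' : X × Fin (n' + 1), (∑ p, sN n' s x' * ((gN c r n n').P ^ t) x'
        ((gN c r n n').src p) * (gN c r n n').wt p * fN n' f p) =
        sN n' s x' * ∑ p, (((gN c r n n').P ^ t) x'
        ((gN c r n n').src p) * (gN c r n n').wt p * fN n' f p) := by
      intro x'
      rw [Finset.mul_sum]
      refine Finset.sum_congr rfl fun p _ => ?_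
      ring
    rw [Finset.sum_congr rfl fun x' _ => h2 x', sum_sN]
    have h3 : ∀ x : X, (∑ p, (((gN c r n n').P ^ t) (x, 0)
        ((gN c r n n').src p) * (gN c r n n').wt p * fN n' f p)) =
        if t < n then ∑ e, c.P t x (c.src e) * c.wt e * f e else 0 := by
      intro x
      obtain ⟨hh, hd⟩ : ∃ hh : ℕ → (E ⊕ X) → ℝ, ∀ k a, hh k a = if k = t then
          c.P (min t n) x (s0 c a) * wk c n k a * Sum.elim f (fun _ => 0) a else 0 :=
        ⟨_, fun _ _ => rfl⟩
      have h4 : ∀ p : (E ⊕ X) × Fin n', ((gN c r n n').P ^ t) (x, 0)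
          ((gN c r n n').src p) * (gN c r n n').wt p * fN n' f p = hh (p.2 : ℕ) p.1 := by
        rintro ⟨a, k⟩
        rw [hd]
        show ((gN c r n n').P ^ t) (x, 0) (s0 c a, k.castSucc) * wk c n k a *
          Sum.elim f (fun _ => 0) a = _
        rw [gN_pow]
        simp only [Fin.val_castSucc, Fin.val_zero, zero_add, Nat.sub_zero]
        by_cases h5 : (k : ℕ) = t
        · rw [if_pos h5, if_pos h5]
        · rw [if_neg h5, if_neg h5, zero_mul, zero_mul]
      rw [(Finset.sum_congr rfl fun p _ => h4 p).trans (sumE n' hh)]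
      simp only [hd]
      rw [Finset.sum_eq_single t]
      · simp only [if_true]
        rw [Fintype.sum_sum_type]
        have h5 : ∀ y : X, c.P (min t n) x (s0 c (Sum.inr y : E ⊕ X)) *
            wk c n t (Sum.inr y) * Sum.elim f (fun _ => 0) (Sum.inr y : E ⊕ X) = 0 := by
          intro y
          simp
        simp only [h5, Finset.sum_const_zero, add_zero]
        by_cases h6 : t < n
        · rw [if_pos h6]
          refine Finset.sum_congr rfl fun e _ => ?_
          have h7 : min t n = t := by omega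
          simp [s0, wk, h6, h7]
        · rw [if_neg h6]
          refine Finset.sum_eq_zero fun e _ => ?_
          simp [wk, h6]
      · intro k _ hk
        simp [hk]
      · intro h
        exact absurd (Finset.mem_range.2 ht) h
    rw [Finset.sum_congr rfl fun x _ => by rw [h3 x]]
    by_cases h6 : t < n
    · simp only [if_pos h6]
      refine Finset.sum_congr rfl fun x _ => ?_
      rw [Finset.mul_sum]
      refine Finset.sum_congr rfl fun e _ => ?_
      ring
    · simp [h6]
  show ∑ t ∈ range n', (∑ x', ∑ p, sN n' s x' * ((gN c r n n').P ^ t) x'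
      ((gN c r n n').src p) * (gN c r n n').wt p * fN n' f p) = _
  rw [Finset.sum_congr rfl h1, ← Finset.sum_filter]
  unfold Pool.Agent.H66.SLP.exf
  refine Finset.sum_congr ?_ fun _ _ => rfl
  ext t
  simp only [Finset.mem_filter, Finset.mem_range]
  omega

/-- the times of the edges of a walk -/
theorem walk_time (l : List ((E ⊕ X) × Fin n'))
    (hch : l.IsChain fun a b => (gN c r n n').tgt a = (gN c r n n').src b) (i : ℕ)
    (h0 : ∀ e ∈ l.head?, (e.2 : ℕ) = i) : ∀ (j : ℕ) (hj : j < l.length),
    ((l[j]).2 : ℕ) = i + j := by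
  induction l generalizing i with
  | nil => intro j hj; simp at hj
  | cons a l ih =>
    rw [List.isChain_cons] at hch
    have ha : (a.2 : ℕ) = i := h0 a (by simp)
    intro j hj
    cases j with
    | zero => simpa using ha
    | succ j =>
      have h1 := ih hch.2 (i + 1) (by
        intro e he
        have h2 := hch.1 e he
        have h3 : a.2.succ = e.2.castSucc := (Prod.mk.inj h2).2
        have h4 := congrArg Fin.val h3
        simp only [Fin.val_succ, Fin.val_castSucc] at h4
        omega) j (by simpa using hj)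
      simp only [List.getElem_cons_succ]
      rw [h1]
      omega

/-- a walk of the padded net gives a walk of the chain -/
theorem walk_back (hn1 : 1 ≤ n) (hn : n ≤ n') (s : X → ℝ) (f : E → ℝ) (hf : ∀ e, 0 ≤ f e)
    (l' : List ((E ⊕ X) × Fin n')) (hl : l'.length = n') (hw : (gN c r n n').Walk l')
    (hs : ∀ e ∈ l'.head?, 0 < sN n' s ((gN c r n n').src e))
    (hnd : (l'.filterMap (gN c r n n').lt).Nodup) :
    ∃ l : List E, l.length = n ∧ Pool.Agent.H66.SLP.Walk c l ∧
      (∀ e ∈ l.head?, 0 < s (c.src e)) ∧ (l.filterMap c.lt).Nodup ∧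
      (l.map f).sum ≤ (l'.map (fN n' f)).sum := by
  obtain ⟨hpos, hch⟩ := hw
  have hhead : ∀ e ∈ l'.head?, (e.2 : ℕ) = 0 ∧ 0 < s (s0 c e.1) := by
    intro e he
    have h1 := hs e he
    have h2 : (gN c r n n').src e = (s0 c e.1, e.2.castSucc) := rfl
    rw [h2] at h1
    unfold sN at h1
    by_cases h3 : (e.2 : ℕ) = 0
    · refine ⟨h3, ?_⟩
      simpa [h3] using h1
    · simp [h3] at h1
  have htime := walk_time c r n n' l' hch 0 (fun e he => (hhead e he).1)
  have hex : ∀ j : Fin n, ∃ e : E, l'[(j : ℕ)]'(by have := j.2; omega) =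
      (Sum.inl e, ⟨j, by have := j.2; omega⟩) ∧ 0 < c.wt e := by
    intro j
    have hj : (j : ℕ) < l'.length := by have := j.2; omega
    have h1 := htime j hj
    have h2 : 0 < wk c n (l'[(j : ℕ)]).2 (l'[(j : ℕ)]).1 := hpos _ (List.getElem_mem hj)
    obtain ⟨⟨a, k⟩, hak⟩ : ∃ p, p = l'[(j : ℕ)] := ⟨_, rfl⟩
    rw [← hak] at h1 h2
    simp only [zero_add] at h1
    have h3 : (k : ℕ) < n := by have := j.2; omega
    cases a with
    | inl e =>
      refine ⟨e, ?_, ?_⟩
      · rw [← hak]
        exact Prod.ext rfl (Fin.ext h1)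
      · simpa [wk, h3] using h2
    | inr y => simp [wk, h3] at h2
  choose e he1 he2 using hex
  have htake : l'.take n = List.ofFn fun j : Fin n =>
      ((Sum.inl (e j), ⟨j, by have := j.2; omega⟩) : (E ⊕ X) × Fin n') := by
    apply List.ext_getElem
    · simp
      omega
    · intro i h1 h2
      simp only [List.length_ofFn] at h2
      rw [List.getElem_take, List.getElem_ofFn]
      exact he1 ⟨i, h2⟩
  refine ⟨List.ofFn e, List.length_ofFn, ⟨?_, ?_⟩, ?_, ?_, ?_⟩
  · intro x hx
    rw [List.mem_ofFn] at hx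
    obtain ⟨j, rfl⟩ := hx
    exact he2 j
  · rw [List.isChain_ofFn]
    intro i hi
    rw [List.isChain_iff_getElem] at hch
    have h1 := hch i (by omega)
    have h2 : l'[i]'(by omega) = (Sum.inl (e ⟨i, by omega⟩), ⟨i, by omega⟩) :=
      he1 ⟨i, by omega⟩
    have h3 : l'[i + 1]'(by omega) = (Sum.inl (e ⟨i + 1, hi⟩), ⟨i + 1, by omega⟩) :=
      he1 ⟨i + 1, hi⟩
    rw [h2, h3] at h1
    exact (Prod.mk.inj h1).1
  · intro x hx
    obtain ⟨m, rfl⟩ : ∃ m, n = m + 1 := ⟨n - 1, by omega⟩
    rw [List.ofFn_succ] at hx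
    simp only [List.head?_cons, Option.mem_def, Option.some.injEq] at hx
    have h1 : l'[0]'(by omega) = (Sum.inl (e 0), ⟨0, by omega⟩) := he1 0
    have h2 : l'.head? = some (Sum.inl (e 0), ⟨0, by omega⟩) := by
      rw [List.head?_eq_getElem?, List.getElem?_eq_getElem (by omega), h1]
    have h3 := (hhead _ h2).2
    rw [← hx]
    exact h3
  · have h1 : ((l'.take n).filterMap (gN c r n n').lt).Nodup :=
      ((List.take_sublist n l').filterMap _).nodup hnd
    rw [htake, List.ofFn_eq_map, List.filterMap_map] at h1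
    have h2 : (List.ofFn e).filterMap (fun x => (c.lt x).map r) =
        (List.finRange n).filterMap ((gN c r n n').lt ∘ fun j : Fin n =>
          ((Sum.inl (e j), ⟨j, by have := j.2; omega⟩) : (E ⊕ X) × Fin n')) := by
      rw [List.ofFn_eq_map, List.filterMap_map]
      rfl
    rw [← h2, ← List.map_filterMap] at h1
    exact List.Nodup.of_map r h1
  · have h1 : (l'.map (fN n' f)).sum = ((l'.take n).map (fN n' f)).sum +
        ((l'.drop n).map (fN n' f)).sum := by
      rw [← List.sum_append, ← List.map_append, List.take_append_drop]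
    have h2 : 0 ≤ ((l'.drop n).map (fN n' f)).sum := by
      apply List.sum_nonneg
      intro x hx
      rw [List.mem_map] at hx
      obtain ⟨p, _, rfl⟩ := hx
      unfold fN
      cases p.1 with
      | inl e => exact hf e
      | inr y => exact le_rfl
    have h3 : ((l'.take n).map (fN n' f)).sum = ((List.ofFn e).map f).sum := by
      rw [htake, List.map_ofFn, List.map_ofFn]
      rfl
    rw [h1, h3]
    linarith

end pad

theorem pf_PAN : T_PAN := by
  intro X E Y _ _ _ c n n' s f κ hn1 hn hκ hu hv hs hs1 hhalf hf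
  classical
  -- there is an edge
  have hE : Nonempty E := by
    by_contra hne
    rw [not_nonempty_iff] at hne
    obtain ⟨m, rfl⟩ : ∃ m, n = m + 1 := ⟨n - 1, by omega⟩
    have h1 : ∀ x z, c.P (m + 1) x z = 0 := by
      intro x z
      rw [c.P_succ]
      exact Finset.sum_of_isEmpty _
    simp only [h1, mul_zero, Finset.sum_const_zero] at hhalf
    norm_num at hhalf
  obtain ⟨e1⟩ := hE
  obtain ⟨r, hr⟩ : ∃ r : Y → E, ∀ e y, c.lt e = some y → c.lt (r y) = some y := by
    refine ⟨fun y => if h : ∃ e, c.lt e = some y then h.choose else e1, ?_⟩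
    intro e y he
    have h : ∃ e, c.lt e = some y := ⟨e, he⟩
    simp only [dif_pos h]
    exact h.choose_spec
  refine ⟨X × Fin (n' + 1), (E ⊕ X) × Fin n', E, inferInstance, inferInstance, inferInstance,
    inferInstance, inferInstance, inferInstance, gN c r n n', sN n' s, fN n' f, ?_, le_rfl,
    up_le c r n n' hn hκ hr hu, um_le c r n n' hn hκ hr hv, ?_, ?_, ?_, ?_, ?_, ?_⟩
  · rw [Fintype.card_prod, Fintype.card_fin]
  · intro x
    unfold sN
    split
    · exact hs _
    · exact le_rfl
  · rw [sum_sN_one, hs1]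
  · rw [surv c r n n' hn s]
    exact hhalf
  · intro p
    unfold fN
    cases p.1 with
    | inl e => exact hf e
    | inr y => exact le_rfl
  · exact (ex_eq c r n n' hn s f).le
  · intro l' hl hw hs' hnd
    exact walk_back c r n n' hn1 hn s f hf l' hl hw hs' hnd

end Pool.Agent.H35.AT
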